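import Pool.Agent.HA.All

/-!
The hole probability of the Gaussian entire function in annuli.

Let `K` be the closed annulus `a ≤ |z| ≤ b`, `0 < a < b`, whose capacity is `b`.  Then
`r ^ (-4) (- log P(no zero in r K))` tends to `C(a, b)`, the infimum over `μ ≥ 0` of
`2 ∫_0^μ (φ_a(x) - φ_a(μ))⁺ dx + 2 ∫_μ^∞ (φ_b(x) - φ_b(μ))⁺ dx`, with
`φ_t(x) = x log t - (x log x - x) / 2`.  It is positive, smaller than `(e^2/4) b^4`, and `C(a, 1)`
takes arbitrarily small values for `a < 1`.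
-/

namespace Pool.Agent.Results.MP_629fb1_pr.AnnulusExponent

open MeasureTheory ProbabilityTheory Filter Topology Pool.Agent.GH Pool.Agent.HA

universe u

theorem result :
    (∃ (Ω : Type) (_ : MeasurableSpace Ω) (P : Measure Ω) (ξ : ℕ → Ω → ℂ), IsGauss P ξ) ∧
    (∀ a b : ℝ, 0 < a → a < b →
      IsCompact (ann a b) ∧ IsConnected (ann a b) ∧ (interior (ann a b)).Nonempty ∧
      cap (ann a b) = b ∧
      (∀ {Ω : Type u} [MeasurableSpace Ω] (P : Measure Ω) (ξ : ℕ → Ω → ℂ), IsGauss P ξ →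
        Tendsto (fun r : ℝ => -Real.log (holeP P ξ (ann a b) r) / r ^ 4) atTop
          (𝓝 (Cexp a b))) ∧
      0 < Cexp a b ∧ Cexp a b < Real.exp 2 / 4 * cap (ann a b) ^ 4) ∧
    ∀ ε : ℝ, 0 < ε → ∃ a : ℝ, 0 < a ∧ a < 1 ∧ Cexp a 1 < ε := by
  have hle : ∀ a b μ : ℝ, 0 < a → a < b → 0 ≤ μ → Cexp a b ≤ Phi a b μ := by
    intro a b μ ha hab hμ
    refine csInf_le ⟨0, ?_⟩ ⟨μ, hμ, rfl⟩
    rintro x ⟨ν, hν, rfl⟩
    exact an_CMP.1 a b ν ha hab hν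
  refine ⟨EXI_thm GSB_thm, fun a b ha hab => ?_, fun ε hε => ?_⟩
  · obtain ⟨h1, h2, h3⟩ := TOP_thm a b ha hab
    refine ⟨h1, h2, h3, an_CPA a b ha hab, fun P ξ hG => an_HAN P ξ hG a b ha hab,
      an_POS a b ha hab, ?_⟩
    rw [an_CPA a b ha hab]
    exact lt_of_le_of_lt (hle a b (a ^ 2) ha hab (sq_nonneg a)) (an_CMP.2.1 a b ha hab)
  · obtain ⟨a, ha0, ha1, h⟩ := an_CMP.2.2 ε hε
    exact ⟨a, ha0, ha1, lt_of_le_of_lt (hle a 1 (a ^ 2) ha0 ha1 (sq_nonneg a)) h⟩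

end Pool.Agent.Results.MP_629fb1_pr.AnnulusExponent
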