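import Pool.Agent.HX.All

/-!
The hole probability exponent of the Gaussian entire function exists for every compact set `K`
(no connectedness, no condition on the boundary), and it is given by a deterministic variational
formula.  It lies between `(e^2/4) ρ^4`, for every closed disk of radius `ρ` contained in `K`, and
`(e^2/4) c(K)^4`; for a connected compact set with nonempty interior it equals `(e^2/4) c(K)^4` if
and only if `K` is a closed disk.
-/

namespace Pool.Agent.Results.MP_629fb1_pr.ExponentAllCompact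

open MeasureTheory ProbabilityTheory Filter Topology Pool.Agent.GH Pool.Agent.HA Pool.Agent.HX

universe u

theorem result :
    (∃ (Ω : Type) (_ : MeasurableSpace Ω) (P : Measure Ω) (ξ : ℕ → Ω → ℂ), IsGauss P ξ) ∧
    ∀ K : Set ℂ, IsCompact K →
      (∀ {Ω : Type u} [MeasurableSpace Ω] (P : Measure Ω) (ξ : ℕ → Ω → ℂ), IsGauss P ξ →
        (∀ᶠ r : ℝ in atTop, 0 < holeP P ξ K r) ∧
        Tendsto (fun r : ℝ => -Real.log (holeP P ξ K r) / r ^ 4) atTop (𝓝 (Jex K))) ∧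
      {c : ℝ | Good K c}.Nonempty ∧ BddBelow {c : ℝ | Good K c} ∧
      (∀ (a : ℂ) (ρ : ℝ), 0 < ρ → Metric.closedBall a ρ ⊆ K →
        Real.exp 2 / 4 * ρ ^ 4 ≤ Jex K) ∧
      (K.Nonempty → Jex K ≤ Real.exp 2 / 4 * cap K ^ 4) ∧
      (IsConnected K → (interior K).Nonempty →
        (Jex K = Real.exp 2 / 4 * cap K ^ 4 ↔
          ∃ (z : ℂ) (ρ : ℝ), K = Metric.closedBall z ρ)) := by
  obtain ⟨Ω, mΩ, P, ξ, hξ⟩ := EXI_thm GSB_thm
  refine ⟨⟨Ω, mΩ, P, ξ, hξ⟩, fun K hK => ⟨fun P ξ hG => ⟨?_, (MAI.lim a_UPC a_ADM P ξ hG K hK).2⟩,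
    (MAI.lim a_UPC a_ADM P ξ hξ K hK).1, MAI.bdd K,
    fun a ρ hρ h => MAI.inr_le a_UPC a_ADM a_INR K hK a ρ hρ h,
    fun hne => MAI.jex_le_cap a_UPC a_ADM K hK hne,
    fun hc hi => MAI.iff_disk a_UPC a_ADM a_INR a_CPD K hK hc hi⟩⟩
  obtain ⟨Q, hQ⟩ := MAI.exists_Q P ξ hG K hK
  exact hQ.mono fun r hr => lt_of_lt_of_le (Real.exp_pos _) hr

end Pool.Agent.Results.MP_629fb1_pr.ExponentAllCompact
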